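import Mathlib
import Pool.Agent.R285.DualX

/-!
# A real Banach space `X` with `n'(X*) > n'(X)`
-/

set_option autoImplicit false

namespace Pool.Agent.Results.MP_a8e783_an.DualIndexLarger

open Filter Topology Pool.Agent.R285.DualX Pool.Agent.Results.MP_01d095_an.SecondIndexSum

/-- the map `φ(z) = Re z + i (1-ε) Im z` on `ℂ` -/
noncomputable def phi (ε : ℝ) : ℂ →L[ℝ] ℂ :=
  Complex.ofRealCLM.comp Complex.reCLM +
    (1 - ε) • (Complex.I • Complex.ofRealCLM.comp Complex.imCLM)

lemma phi_apply (ε : ℝ) (z : ℂ) : phi ε z = (z.re : ℂ) + ((1 - ε : ℝ) : ℂ) * (Complex.I * (z.im : ℂ)) := by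
  simp [phi]

lemma phi_re (ε : ℝ) (z : ℂ) : (phi ε z).re = z.re := by
  rw [phi_apply]; simp

lemma phi_im (ε : ℝ) (z : ℂ) : (phi ε z).im = (1 - ε) * z.im := by
  rw [phi_apply]; simp

lemma inner_eq (z w : ℂ) : inner ℝ z w = z.re * w.re + z.im * w.im := by
  rw [Complex.inner]; simp; ring

lemma norm_sq (z : ℂ) : ‖z‖ ^ 2 = z.re ^ 2 + z.im ^ 2 := by
  rw [← Complex.normSq_eq_norm_sq, Complex.normSq_apply]; ring

lemma phi_le {ε : ℝ} (h0 : 0 < ε) (h1 : ε < 1) (z : ℂ) : ‖phi ε z‖ ≤ ‖z‖ := by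
  rw [← abs_of_nonneg (norm_nonneg (phi ε z)), ← abs_of_nonneg (norm_nonneg z), ← sq_le_sq,
    norm_sq, norm_sq, phi_re, phi_im]
  have h2 : (1 - ε) ^ 2 ≤ 1 := by nlinarith
  nlinarith [sq_nonneg z.im]

/-- the commutator term -/
lemma comm_eq (ε : ℝ) (z : ℂ) : ‖phi ε (Complex.I * z) - Complex.I * phi ε z‖ = |ε| * ‖z‖ := by
  have h : ‖phi ε (Complex.I * z) - Complex.I * phi ε z‖ ^ 2 = (|ε| * ‖z‖) ^ 2 := by
    rw [norm_sq, mul_pow, sq_abs, norm_sq]
    simp only [Complex.sub_re, Complex.sub_im, phi_re, phi_im, Complex.mul_re, Complex.mul_im,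
      Complex.I_re, Complex.I_im]
    ring
  exact (sq_eq_sq₀ (norm_nonneg _) (by positivity)).1 h

lemma exists_T {ε : ℝ} (h0 : 0 < ε) : ∃ T : X (phi ε) →L[ℝ] X (phi ε),
    ∀ x n, co (T x) n = Complex.I * co x n +
      if n = 0 then 0 else (phi ε (Complex.I * co x 0) - Complex.I * phi ε (co x 0)) := by
  refine exists_op (φ := phi ε) (fun n x => Complex.I * co x n +
      if n = 0 then 0 else (phi ε (Complex.I * co x 0) - Complex.I * phi ε (co x 0)))
    (1 + |ε|) (by positivity) ?_ ?_ ?_ ?_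
  · intro n x
    have h1 : ‖Complex.I * co x n‖ ≤ ‖x‖ := by
      rw [norm_mul, Complex.norm_I, one_mul]; exact co_le x n
    have h2 : ‖(if n = 0 then 0 else (phi ε (Complex.I * co x 0) - Complex.I * phi ε (co x 0)) : ℂ)‖
        ≤ |ε| * ‖x‖ := by
      split_ifs
      · rw [norm_zero]; positivity
      · rw [comm_eq]; exact mul_le_mul_of_nonneg_left (co_le x 0) (abs_nonneg _)
    calc _ ≤ _ := norm_add_le _ _
      _ ≤ ‖x‖ + |ε| * ‖x‖ := add_le_add h1 h2
      _ = _ := by ring
  · intro n x y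
    simp only [co_add, mul_add, map_add]
    split_ifs <;> ring
  · intro n c x
    have h1 : Complex.I * (c • co x 0) = c • (Complex.I * co x 0) := by
      rw [Complex.real_smul, Complex.real_smul]; ring
    simp only [co_smul]
    rw [h1, map_smul, map_smul]
    simp only [Complex.real_smul]
    split_ifs <;> ring
  · intro x
    have h1 : Tendsto (fun n => Complex.I * co x n) atTop (𝓝 (Complex.I * phi ε (co x 0))) :=
      (co_tendsto x).const_mul _
    have h2 := h1.add_const (phi ε (Complex.I * co x 0) - Complex.I * phi ε (co x 0))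
    rw [if_pos rfl, add_zero]
    have e : Complex.I * phi ε (co x 0) +
      (phi ε (Complex.I * co x 0) - Complex.I * phi ε (co x 0)) = phi ε (Complex.I * co x 0) := by
      ring
    rw [e] at h2
    refine h2.congr' ?_
    filter_upwards [eventually_ge_atTop 1] with n hn
    rw [if_neg (by omega)]

lemma numRadius_T {ε : ℝ} (h0 : 0 < ε) (T : X (phi ε) →L[ℝ] X (phi ε))
    (hT : ∀ x n, co (T x) n = Complex.I * co x n +
      if n = 0 then 0 else (phi ε (Complex.I * co x 0) - Complex.I * phi ε (co x 0))) :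
    numRadius T ≤ ε := by
  apply numRadius_le _ _ h0.le
  intro x f hx
  have key : ∀ θ : ℝ, θ * f (T x) ≤ θ ^ 2 / 2 + |θ| * ε := by
    intro θ
    have h1 : ‖x + θ • T x‖ ≤ (1 + θ ^ 2 / 2) + |θ| * ε := by
      refine norm_le _ (by positivity) fun n => ?_
      rw [co_add, co_smul, hT]
      have hc1 : ‖(1 + θ * Complex.I : ℂ)‖ ≤ 1 + θ ^ 2 / 2 := by
        rw [← abs_of_nonneg (norm_nonneg (1 + θ * Complex.I : ℂ)),
          ← abs_of_nonneg (by positivity : (0 : ℝ) ≤ 1 + θ ^ 2 / 2), ← sq_le_sq, norm_sq]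
        simp
        nlinarith [sq_nonneg (θ ^ 2)]
      have hc2 : ‖(1 + θ * Complex.I) * co x n‖ ≤ 1 + θ ^ 2 / 2 := by
        rw [norm_mul]
        have h2 := co_le x n
        rw [hx.1] at h2
        calc _ ≤ (1 + θ ^ 2 / 2) * 1 := mul_le_mul hc1 h2 (norm_nonneg _) (by positivity)
          _ = _ := mul_one _
      have hc3 : ‖(θ : ℂ) * (if n = 0 then 0 else
          (phi ε (Complex.I * co x 0) - Complex.I * phi ε (co x 0)) : ℂ)‖ ≤ |θ| * ε := by
        rw [norm_mul, Complex.norm_real, Real.norm_eq_abs]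
        refine mul_le_mul_of_nonneg_left ?_ (abs_nonneg _)
        split_ifs
        · rw [norm_zero]; exact h0.le
        · rw [comm_eq, abs_of_pos h0]
          have h2 := co_le x 0
          rw [hx.1] at h2
          nlinarith
      have e : co x n + θ • (Complex.I * co x n +
          if n = 0 then 0 else (phi ε (Complex.I * co x 0) - Complex.I * phi ε (co x 0))) =
          (1 + θ * Complex.I) * co x n + (θ : ℂ) * (if n = 0 then 0 else
          (phi ε (Complex.I * co x 0) - Complex.I * phi ε (co x 0))) := by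
        rw [Complex.real_smul]; ring
      rw [e]
      exact (norm_add_le _ _).trans (add_le_add hc2 hc3)
    have h2 : f (x + θ • T x) ≤ ‖x + θ • T x‖ := by
      have := f.le_opNorm (x + θ • T x)
      rw [hx.2.1, one_mul] at this
      exact (le_abs_self _).trans this
    rw [map_add, map_smul, smul_eq_mul, hx.2.2] at h2
    linarith
  rw [abs_le]
  constructor
  · apply le_of_forall_pos_le_add
    intro δ hδ
    have := key (-δ)
    rw [abs_neg, abs_of_pos hδ] at this
    have h3 : δ * (-f (T x)) ≤ δ * (δ / 2 + ε) := by nlinarith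
    have h4 := le_of_mul_le_mul_left h3 hδ
    linarith
  · apply le_of_forall_pos_le_add
    intro δ hδ
    have := key δ
    rw [abs_of_pos hδ] at this
    have h3 : δ * f (T x) ≤ δ * (δ / 2 + ε) := by nlinarith
    have h4 := le_of_mul_le_mul_left h3 hδ
    linarith

/-- evaluation functionals are states -/
lemma state {φ : ℂ →L[ℝ] ℂ} (x : X φ) (hx : ‖x‖ ≤ 1) (n : ℕ) (u : ℂ) (hu : ‖u‖ = 1)
    (hxn : co x n = u) (S : X φ →L[ℝ] X φ) (hS : numRadius S = 0) :
    inner ℝ u (co (S x) n) = 0 := by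
  have hx1 : ‖x‖ = 1 := le_antisymm hx (by rw [← hu, ← hxn]; exact co_le x n)
  let f : X φ →L[ℝ] ℝ := LinearMap.mkContinuous
    { toFun := fun y => inner ℝ u (co y n)
      map_add' := fun y z => by rw [co_add, inner_add_right]
      map_smul' := fun c y => by rw [co_smul, inner_smul_right]; rfl } 1 (fun y => by
      rw [one_mul]
      refine (norm_inner_le_norm (𝕜 := ℝ) u (co y n)).trans ?_
      rw [hu, one_mul]; exact co_le y n)
  have hf : ∀ y, f y = inner ℝ u (co y n) := fun y => rfl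
  have hfx : f x = 1 := by rw [hf, hxn, real_inner_self_eq_norm_sq, hu, one_pow]
  have hf1 : ‖f‖ ≤ 1 := LinearMap.mkContinuous_norm_le _ zero_le_one _
  have hf2 : 1 ≤ ‖f‖ := by
    have := f.le_opNorm x
    rw [hfx, hx1, mul_one] at this
    simpa using this
  have hst : IsState (X φ) x f := ⟨hx1, le_antisymm hf1 hf2, hfx⟩
  have h1 := le_numRadius S hst
  rw [hS] at h1
  have h2 := abs_nonpos_iff.1 h1
  rwa [hf] at h2

lemma basis (φ : ℂ →L[ℝ] ℂ) (n : ℕ) (u : ℂ) :
    ∃ x : X φ, ∀ m, co x m = if m = n + 1 then u else 0 := by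
  obtain ⟨x, hx⟩ := exists_mk' (φ := φ) (fun m => if m = n + 1 then u else 0) (n + 2) (by
    intro m hm
    rw [if_neg (by omega), if_neg (by omega), map_zero])
  exact ⟨x, hx⟩

lemma const (φ : ℂ →L[ℝ] ℂ) (u : ℂ) :
    ∃ x : X φ, ∀ m, co x m = if m = 0 then u else φ u := by
  obtain ⟨x, hx⟩ := exists_mk' (φ := φ) (fun m => if m = 0 then u else φ u) 1 (by
    intro m hm
    simp only [if_true]
    rw [if_neg (by omega)])
  exact ⟨x, hx⟩

/-- off-diagonal entries of a skew-hermitian operator vanish (rows `n ≥ 1`) -/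
lemma off_diag {φ : ℂ →L[ℝ] ℂ} (S : X φ →L[ℝ] X φ) (hS : numRadius S = 0) (n : ℕ)
    (z : X φ) (hz : ‖z‖ ≤ 1) (hzn : co z (n + 1) = 0) : co (S z) (n + 1) = 0 := by
  have key : ∀ u : ℂ, ‖u‖ = 1 → inner ℝ u (co (S z) (n + 1)) = 0 := by
    intro u hu
    obtain ⟨e, he⟩ := basis φ n u
    have h1 : ‖e + z‖ ≤ 1 := norm_le _ zero_le_one fun m => by
      rw [co_add, he]
      split_ifs with h
      · rw [h, hzn, add_zero, hu]
      · rw [zero_add]; exact (co_le z m).trans hz
    have h2 : ‖-e + z‖ ≤ 1 := norm_le _ zero_le_one fun m => by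
      rw [co_add, co_neg, he]
      split_ifs with h
      · rw [h, hzn, add_zero, norm_neg, hu]
      · rw [neg_zero, zero_add]; exact (co_le z m).trans hz
    have h3 := state (e + z) h1 (n + 1) u hu (by rw [co_add, he, if_pos rfl, hzn, add_zero]) S hS
    have h4 := state (-e + z) h2 (n + 1) (-u) (by rw [norm_neg, hu])
      (by rw [co_add, co_neg, he, if_pos rfl, hzn, add_zero]) S hS
    rw [map_add, co_add, inner_add_right] at h3
    rw [map_add, co_add, inner_add_right, ContinuousLinearMap.map_neg, co_neg, inner_neg_right,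
      inner_neg_left, inner_neg_left] at h4
    linarith
  have h1 := key 1 norm_one
  have h2 := key Complex.I Complex.norm_I
  rw [inner_eq] at h1 h2
  apply Complex.ext <;> simp at h1 h2 ⊢
  · exact h1
  · exact h2

lemma off_diag' {φ : ℂ →L[ℝ] ℂ} (S : X φ →L[ℝ] X φ) (hS : numRadius S = 0) (n : ℕ)
    (z : X φ) (hzn : co z (n + 1) = 0) : co (S z) (n + 1) = 0 := by
  set c := ‖z‖ + 1 with hc
  have hc0 : 0 < c := by have := norm_nonneg z; linarith
  have h1 := off_diag S hS n (c⁻¹ • z) (by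
    rw [norm_smul, norm_inv, Real.norm_eq_abs, abs_of_pos hc0, inv_mul_le_iff₀ hc0]
    linarith) (by rw [co_smul, hzn, smul_zero])
  rw [map_smul, co_smul] at h1
  rcases smul_eq_zero.1 h1 with h | h
  · exact absurd h (by positivity)
  · exact h

/-- the diagonal entries -/
lemma diag {φ : ℂ →L[ℝ] ℂ} (S : X φ →L[ℝ] X φ) (hS : numRadius S = 0) (n : ℕ) :
    ∃ t : ℝ, ∀ x : X φ, co (S x) (n + 1) = t * (Complex.I * co x (n + 1)) := by
  obtain ⟨e1, he1⟩ := basis φ n 1
  obtain ⟨e2, he2⟩ := basis φ n Complex.I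
  obtain ⟨e3, he3⟩ := basis φ n ((3 / 5 : ℝ) + (4 / 5 : ℝ) * Complex.I)
  have hn : ∀ (u : ℂ) (hu : ‖u‖ = 1) (e : X φ) (he : ∀ m, co e m = if m = n + 1 then u else 0),
      inner ℝ u (co (S e) (n + 1)) = 0 := by
    intro u hu e he
    refine state e (norm_le _ zero_le_one fun m => ?_) (n + 1) u hu (by rw [he, if_pos rfl]) S hS
    rw [he]
    split_ifs
    · rw [hu]
    · rw [norm_zero]; exact zero_le_one
  have hu3 : ‖((3 / 5 : ℝ) + (4 / 5 : ℝ) * Complex.I : ℂ)‖ = 1 := by
    have : ‖((3 / 5 : ℝ) + (4 / 5 : ℝ) * Complex.I : ℂ)‖ ^ 2 = 1 ^ 2 := by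
      rw [norm_sq]
      simp only [Complex.add_re, Complex.add_im, Complex.mul_re, Complex.mul_im, Complex.ofReal_re,
        Complex.ofReal_im, Complex.I_re, Complex.I_im]
      norm_num
    exact (sq_eq_sq₀ (norm_nonneg _) zero_le_one).1 this
  have h1 := hn 1 norm_one e1 he1
  have h2 := hn Complex.I Complex.norm_I e2 he2
  have h3 := hn _ hu3 e3 he3
  have e3eq : e3 = (3 / 5 : ℝ) • e1 + (4 / 5 : ℝ) • e2 := co_ext fun m => by
    rw [co_add, co_smul, co_smul, he1, he2, he3]
    split_ifs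
    · rw [Complex.real_smul, Complex.real_smul, mul_one]
    · rw [smul_zero, smul_zero, add_zero]
  rw [e3eq, map_add, map_smul, map_smul, co_add, co_smul, co_smul] at h3
  rw [inner_eq] at h1 h2 h3
  simp only [Complex.one_re, Complex.one_im, Complex.I_re, Complex.I_im, zero_mul, one_mul,
    add_zero, zero_add, Complex.add_re, Complex.add_im, Complex.mul_re, Complex.mul_im,
    Complex.ofReal_re, Complex.ofReal_im, Complex.real_smul, mul_zero, mul_one, sub_zero] at h1 h2 h3
  refine ⟨(co (S e1) (n + 1)).im, fun x => ?_⟩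
  set w := co x (n + 1) with hw
  have hz : co (x - (w.re • e1 + w.im • e2)) (n + 1) = 0 := by
    rw [co_sub, co_add, co_smul, co_smul, he1, he2, if_pos rfl, if_pos rfl, ← hw,
      Complex.real_smul, Complex.real_smul, mul_one, Complex.re_add_im, sub_self]
  have h4 := off_diag' S hS n _ hz
  rw [ContinuousLinearMap.map_sub, co_sub, map_add, co_add, map_smul, map_smul, co_smul, co_smul,
    sub_eq_zero] at h4
  rw [h4]
  have h5 : (co (S e2) (n + 1)).re = -(co (S e1) (n + 1)).im := by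
    rw [h1, h2] at h3
    linarith
  apply Complex.ext
  · simp only [Complex.add_re, Complex.mul_re, Complex.mul_im, Complex.ofReal_re,
      Complex.ofReal_im, Complex.real_smul, Complex.I_re, Complex.I_im, h1, h5]
    ring
  · simp only [Complex.add_im, Complex.mul_re, Complex.mul_im, Complex.ofReal_re,
      Complex.ofReal_im, Complex.real_smul, Complex.I_re, Complex.I_im, h2]
    ring

lemma one_le_norm {ε : ℝ} (h0 : 0 < ε) (h1 : ε < 1) (T : X (phi ε) →L[ℝ] X (phi ε))
    (hT : ∀ x n, co (T x) n = Complex.I * co x n +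
      if n = 0 then 0 else (phi ε (Complex.I * co x 0) - Complex.I * phi ε (co x 0)))
    (S : X (phi ε) →L[ℝ] X (phi ε)) (hS : numRadius S = 0) : 1 ≤ ‖T - S‖ := by
  choose t ht using fun n => diag S hS n
  obtain ⟨c1, hc1⟩ := const (phi ε) 1
  obtain ⟨c2, hc2⟩ := const (phi ε) Complex.I
  obtain ⟨c3, hc3⟩ := const (phi ε) ((3 / 5 : ℝ) + (4 / 5 : ℝ) * Complex.I)
  have hn : ∀ (u : ℂ) (hu : ‖u‖ = 1) (e : X (phi ε))
      (he : ∀ m, co e m = if m = 0 then u else phi ε u), inner ℝ u (co (S e) 0) = 0 := by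
    intro u hu e he
    refine state e (norm_le _ zero_le_one fun m => ?_) 0 u hu (by rw [he, if_pos rfl]) S hS
    rw [he]
    split_ifs
    · rw [hu]
    · rw [← hu]; exact phi_le h0 h1 u
  have hu3 : ‖((3 / 5 : ℝ) + (4 / 5 : ℝ) * Complex.I : ℂ)‖ = 1 := by
    have : ‖((3 / 5 : ℝ) + (4 / 5 : ℝ) * Complex.I : ℂ)‖ ^ 2 = 1 ^ 2 := by
      rw [norm_sq]
      simp only [Complex.add_re, Complex.add_im, Complex.mul_re, Complex.mul_im, Complex.ofReal_re,
        Complex.ofReal_im, Complex.I_re, Complex.I_im]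
      norm_num
    exact (sq_eq_sq₀ (norm_nonneg _) zero_le_one).1 this
  have g1 := hn 1 norm_one c1 hc1
  have g2 := hn Complex.I Complex.norm_I c2 hc2
  have g3 := hn _ hu3 c3 hc3
  have c3eq : c3 = (3 / 5 : ℝ) • c1 + (4 / 5 : ℝ) • c2 := co_ext fun m => by
    rw [co_add, co_smul, co_smul, hc1, hc2, hc3]
    split_ifs
    · rw [Complex.real_smul, Complex.real_smul, mul_one]
    · rw [← map_smul, ← map_smul, ← map_add, Complex.real_smul, Complex.real_smul, mul_one]
  rw [c3eq, map_add, map_smul, map_smul, co_add, co_smul, co_smul] at g3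
  rw [inner_eq] at g1 g2 g3
  simp only [Complex.one_re, Complex.one_im, Complex.I_re, Complex.I_im, zero_mul, one_mul,
    add_zero, zero_add, Complex.add_re, Complex.add_im, Complex.mul_re, Complex.mul_im,
    Complex.ofReal_re, Complex.ofReal_im, Complex.real_smul, mul_zero, mul_one, sub_zero] at g1 g2 g3
  rw [g1, g2] at g3
  -- limits
  have l1 := (tendsto_add_atTop_iff_nat 1).2 (co_tendsto (S c1))
  have l2 := (tendsto_add_atTop_iff_nat 1).2 (co_tendsto (S c2))
  have m1 : Tendsto t atTop (𝓝 ((1 - ε) * (co (S c1) 0).im)) := by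
    have := (Complex.continuous_im.tendsto _).comp l1
    rw [phi_im] at this
    refine this.congr fun n => ?_
    rw [Function.comp_apply, ht, hc1, if_neg (by omega), phi_apply]
    simp
  have m2 : Tendsto (fun n => -(t n * (1 - ε))) atTop (𝓝 ((co (S c2) 0).re)) := by
    have := (Complex.continuous_re.tendsto _).comp l2
    rw [phi_re] at this
    refine this.congr fun n => ?_
    rw [Function.comp_apply, ht, hc2, if_neg (by omega), phi_apply]
    simp
    ring
  have m3 : Tendsto (fun n => -(t n * (1 - ε))) atTop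
      (𝓝 (-((1 - ε) * (co (S c1) 0).im * (1 - ε)))) := (m1.mul_const _).neg
  have m4 := tendsto_nhds_unique m2 m3
  have hs : (co (S c1) 0).im = 0 := by
    have g4 : (co (S c2) 0).re = -(co (S c1) 0).im := by linarith
    rw [g4] at m4
    have g5 : (co (S c1) 0).im * (1 - (1 - ε) ^ 2) = 0 := by linarith
    rcases mul_eq_zero.1 g5 with g | g
    · exact g
    · nlinarith
  rw [hs, mul_zero] at m1
  -- conclusion
  have hfin : ∀ n, |1 - t n| ≤ ‖T - S‖ := by
    intro n
    obtain ⟨e, he⟩ := basis (phi ε) n 1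
    have he1 : ‖e‖ ≤ 1 := norm_le _ zero_le_one fun m => by
      rw [he]
      split_ifs
      · rw [norm_one]
      · rw [norm_zero]; exact zero_le_one
    have h2 := (T - S).le_opNorm e
    have h3 : ‖(T - S) e‖ ≤ ‖T - S‖ * 1 :=
      h2.trans (mul_le_mul_of_nonneg_left he1 (norm_nonneg (T - S)))
    have h4 := (co_le ((T - S) e) (n + 1)).trans h3
    rw [sub_apply, co_sub, hT, ht, he, he, if_pos rfl, if_neg (by omega), if_neg (by omega)] at h4
    have h5 : ‖(Complex.I * 1 + (phi ε (Complex.I * 0) - Complex.I * phi ε 0) -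
        (t n : ℂ) * (Complex.I * 1) : ℂ)‖ = |1 - t n| := by
      rw [mul_zero, map_zero, mul_zero, sub_zero, add_zero, mul_one]
      have : (Complex.I - (t n : ℂ) * Complex.I) = ((1 - t n : ℝ) : ℂ) * Complex.I := by
        push_cast; ring
      rw [this, norm_mul, Complex.norm_I, mul_one, Complex.norm_real, Real.norm_eq_abs]
    rw [h5, mul_one] at h4
    exact h4
  have m5 : Tendsto (fun n => |1 - t n|) atTop (𝓝 |1 - 0|) := (m1.const_sub 1).abs
  rw [sub_zero, abs_one] at m5
  exact le_of_tendsto' m5 hfin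

/-- For every `ε ∈ (0, 1)` there is a real Banach space `X` with `n'(X) ≤ ε` and
`n'(X*) ≥ 1/2`. -/
theorem result (ε : ℝ) (h0 : 0 < ε) (h1 : ε < 1) :
    ∃ (V : Type) (_ : NormedAddCommGroup V) (_ : NormedSpace ℝ V) (_ : CompleteSpace V)
      (_ : Nontrivial V), secondIndex V ≤ ε ∧ 1 / 2 ≤ secondIndex (V →L[ℝ] ℝ) := by
  have hnt : Nontrivial (X (phi ε)) := by
    obtain ⟨e, he⟩ := basis (phi ε) 0 1
    refine ⟨⟨e, 0, fun h => ?_⟩⟩
    have h2 := he 1
    rw [h, co_zero, if_pos rfl] at h2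
    exact zero_ne_one h2
  refine ⟨X (phi ε), inferInstance, inferInstance, inferInstance, hnt, ?_,
    half_le_dual (phi_le h0 h1)⟩
  obtain ⟨T, hT⟩ := exists_T h0
  have h2 := (isGreatest_secondIndex (X := X (phi ε))).1
  have h3 := h2.2 T
  have h4 := le_quotNorm T 1 fun S hS => one_le_norm h0 h1 T hT S hS
  have h5 := numRadius_T h0 T hT
  nlinarith [h2.1]

end Pool.Agent.Results.MP_a8e783_an.DualIndexLarger
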